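import Mathlib
import Pool.Agent.V8H94.GC.PrimeDegree
import Pool.Agent.V8H94.SS.NoRel

/-!
# Semisimplicity at every `ℓ` from the Frobenius elements above one prime number with generic fields

Let `M` be a pure motive of weight `w` over a number field `F`, with coefficients in a number field
`E` (for instance a summand of `H ^ w (X)` for a smooth projective variety `X`, of any dimension), `ℓ`
a prime number, `𝕂` a completion of `E` above `ℓ` and `ρ` the action of the absolute Galois group of
`F` on the `𝕂`-adic realization of `M`, which is polarized. Outside of finitely many places `v` there
is good reduction, with Frobenius polynomials `P v`, which we consider as complex polynomials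
through an embedding `ι` of `E`. By the starting file `RelationFreeFrobenius` `ρ` is semisimple if for
some prime number `p ≠ ℓ` the Frobenius eigenvalues at the places above `p` have no relations of a
certain kind (isotropic relations). Here we show that this follows from the slopes if the
eigenvalues at one place `v₀` above `p` lie in *generic* CM fields, with any number of eigenvalues in
the same field, and are unrelated to the eigenvalues at the other places above `p`.

A CM field `K` is *generic* (`IsGeneric`) if for any two complex embeddings `φ`, `ψ` of `K` which are
neither equal nor complex conjugate some automorphism of `ℂ` is the identity on `φ (K)` and the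
complex conjugation on `ψ (K)`. This is so if the Galois group is as large as possible. The theorem
contains a proof that the CM fields of the following kinds (`IsExample`) are generic: imaginary
quadratic fields, fields of degree four which are not normal over `ℚ`, fields of degree `2 l`, `l` an
odd prime number, which contain no quadratic field.

**Theorem** (`FrobeniusFields`). Let `p` be a prime number, unramified in `F`, such that `ρ` is good
at the places above `p`, and `v₀` one of these places. Let `K i` be finitely many generic CM fields,
pairwise independent (for `i ≠ j` and all complex embeddings `φ` of `K i` and `ψ` of `K j` some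
automorphism of `ℂ` is the identity on `φ (K i)` and the complex conjugation on `ψ (K j)`), and for
each `i` let `π ⟨i, k⟩` be finitely many numbers in `K i`, each attached to a place `pl z` above `p` and
of absolute value `q ^ (w / 2)`, `q` the number of elements of the residue field of `pl z`. Suppose:

* the roots of `P v₀` are simple, and each of them is real or a conjugate of a `π z` with `pl z = v₀`;
* at the other places `v` above `p` each root of `P v` is a simple root and a conjugate of a `π z`
  with `pl z = v`, or it belongs to a set `S` which is unrelated to the fields `K i` (`UnrelatedTo`):
  for each complex embedding `φ` of `K i` some automorphism of `ℂ` is the complex conjugation on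
  `φ (K i)` and fixes a power of each element of `S` (for instance, all elements of `S` are real, or
  the field generated by them is linearly disjoint from the normal closure of `K i`);
* for each `i` the slope vectors of the numbers `π ⟨i, k⟩` are dissociated (`Dissociated`): there is
  no linear relation between them with coefficients `-1`, `0`, `1` other than the trivial one. Here
  the slope vector (`slopeVec`) is the function `τ ↦ 2 v (τ π) - v (q ^ w)` on the set of the
  embeddings `τ` of `K i` into an algebraic closure of `ℚ_p`, `v (p) = 1`.

Then `ρ` is semisimple, for every `ℓ ≠ p` (such that there are two more prime numbers of good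
reduction unramified in `F`, which is always true for motives).

If there is only one number `π` in a field `K i` the last condition only means that its slopes are
not all equal to `w / 2` (times the degree of the residue field): the Newton polygon is arbitrary.
So, if the Frobenius polynomial at one prime number `p` of a motive over `ℚ` is irreducible with a
generic field `ℚ (π)` and not all slopes are equal, then `ρ` is semisimple for all `ℓ`. If the field
is imaginary quadratic the slope vectors are numbers, and any number of eigenvalues in the same
field is allowed: for instance the differences of the two slopes may be `1, 2, 4, 8, …`, or `1` and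
`3` in weight three.

The conditions concern one prime number `p` only, and if `F ≠ ℚ` essentially one place `v₀` above
`p`; there are no conditions on the Hodge-Tate weights, the dimension or the motivic Galois group.
New compared with the starting files and the hand-in `OneFrobeniusBlocks` (where different
eigenvalues belong to independent fields and satisfy conditions on the divisibility of their
slopes) are: several eigenvalues in the same field, arbitrary Newton polygons, arbitrary unrelated
eigenvalues at the other places above `p`, coefficients in `E`.

The proof. An isotropic relation at `p` is given by a multiset `A v` of `k` roots of `P v` for every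
`v`, such that the product of all of them is a power of `p` up to roots of unity and such that with
each `a` in `A v` there is room for `q ^ w / a`, the complex conjugate of `a`, in the set of roots: no
simple real root and not two simple conjugate roots belong to `A v`. Apply an automorphism of `ℂ`
which is the complex conjugation on `φ (K i)` and fixes powers of the numbers in `S`, and divide: the
unrelated roots disappear, up to roots of unity. Then pass to the slopes and take the sum over the
automorphisms which fix `φ (K i)`. What remains is a relation with coefficients `-1`, `0`, `1` between
the slope vectors of the `π ⟨i, k⟩`, whose coefficients say which one of `φ (π ⟨i, k⟩)` and its complex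
conjugate belongs to `A v`. So none of them does, `A v₀` is empty, and `k = 0`.
-/

set_option autoImplicit false

namespace Pool.Agent.Results.MP_8f1292_ag.GenericFrobeniusFields

open NumberField IsDedekindDomain Polynomial Pool.Agent.V8H94.GC Pool.Agent.V8H94.SS
  Pool.Agent.Results.MP_8f1292_ag.RelationFreeFrobenius

/-- **Semisimplicity at all `ℓ ≠ p` if the Frobenius eigenvalues at one place above `p` lie in generic
CM fields, with dissociated slope vectors, and are unrelated to those at the other places above
`p`; examples of generic CM fields.** -/
theorem result :
    (∀ (F E : Type) [Field F] [NumberField F] [Field E] [NumberField E] (ℓ : ℕ) [Fact ℓ.Prime]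
      (𝕂 : Type) [NormedField 𝕂] [NormedAlgebra ℚ_[ℓ] 𝕂] [FiniteDimensional ℚ_[ℓ] 𝕂] (n : ℕ)
      (ρ : Gal(AlgebraicClosure F/F) →* GL (Fin n) 𝕂) (_ : Continuous ρ) (τ : E →+* 𝕂)
      (ι : E →+* ℂ) (w : ℕ) (P : HeightOneSpectrum (𝓞 F) → E[X]) (T : Set ℕ)
      (_ : 3 ≤ T.encard) (_ : ∀ p ∈ T, p.Prime ∧ p ≠ ℓ ∧ UnramifiedIn F p)
      (_ : ∀ p ∈ T, ∀ v, Above v p → GoodAt ρ τ ι (w : ℤ) v (P v))
      (_ : Polarized ℓ ρ (w : ℤ)) (p : ℕ) [Fact p.Prime] (_ : p ∈ T)
      (v₀ : HeightOneSpectrum (𝓞 F)) (I : Type) [Fintype I] (K : I → Type) [∀ i, Field (K i)]
      [∀ i, NumberField (K i)] [∀ i, IsCMField (K i)] (J : I → Type) [∀ i, Fintype (J i)]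
      (π : ∀ z : Σ i, J i, K z.1) (pl : (Σ i, J i) → HeightOneSpectrum (𝓞 F))
      (f : (Σ i, J i) → ℕ) (S : Set ℂ) (_ : FrobeniusFields P ι w p v₀ K J π pl f S),
      Semisimple ρ) ∧
    ∀ (K : Type) [Field K] [NumberField K] [IsCMField K], IsExample K → IsGeneric K := by
  refine ⟨?_, fun K _ _ _ h => isGeneric_of_example h⟩
  intro F E _ _ _ _ ℓ _ 𝕂 _ _ _ n ρ hρ τ ι w P T hT3 hT hP hpol p _ hp v₀ I _ K _ _ _ J _ π pl f S
    hf
  refine RelationFreeFrobenius.result ℓ ρ hρ τ ι (w : ℤ) P T hT3 hT hP hpol
    (Or.inl fun k hk _ => ⟨p, hp, ?_⟩)
  refine no_relation hf (fun a ha => ?_) hk
  have h1 := (hP p hp v₀ hf.above).pure a ha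
  rw [zpow_natCast] at h1
  exact h1

end Pool.Agent.Results.MP_8f1292_ag.GenericFrobeniusFields
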