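import Pool.Agent.V8H84.HT.Main

/-!
# Semisimplicity at every prime from Hodge numbers

Let `ρ` be an `n`-dimensional `ℓ`-adic representation of the absolute Galois group of a number field
`F`, for example `H^w(X, ℚ_ℓ)` for `X` smooth and projective over `F`. It is polarized (hard
Lefschetz), Hodge-Tate at the places above `ℓ` with the weights `p` of multiplicity `h^{p, w - p}`
(Faltings), and good and pure at almost all places (Deligne). Suppose that the Hodge-Tate weights
are distinct, that is, all Hodge numbers are at most one.

**Theorem.** Suppose that for every `0 < k ≤ n / 2` there is no relation of size `k` between the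
Hodge-Tate weights, or no relation of size `k` between the Frobenius eigenvalues at the places above
one prime `p` of good reduction. Then `ρ` is semisimple.

In particular `ρ` is semisimple, for *every* `ℓ` and without any condition on Frobenius elements, if
`F = ℚ` and `n ≤ 5`, or `F = ℚ`, `w` is odd and `n ≤ 7`, or the degree of `F` is odd and `n ≤ 3`. For
example: `H^3` of every Calabi-Yau threefold over `ℚ` with `h^{2,1} = 1`, and every piece of rank
four of the cohomology of a variety over `ℚ` with the Hodge numbers `1, 1, 1, 1`.

Idea of the proof. It is sufficient that there is no isotropic stable subspace `W ≠ 0`. By Tate's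
theorem on the semi-invariants of `ℂ_ℓ` (which is proved here, with Ax's lemma in
`Pool.Agent.W292.FM`), `W ⊗ ℂ_ℓ` is spanned by Hodge-Tate vectors, with weights no two of which add up
to `w`, and the transfer to `ℚ` of the determinant of `W` is, up to finite order, the power of the
cyclotomic character given by the sum of these weights; there is only one `ℤ_ℓ`-extension of `ℚ`
(`Pool.Agent.Y115`). By purity at `p`, the average of the weights is `w / 2`.
-/

set_option autoImplicit false

namespace Pool.Agent.Results.MP_8f1292_ag.HodgeTateWeights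

open NumberField IsDedekindDomain Polynomial Module Pool.Agent.V8H84.HT

theorem result {F : Type} [Field F] [NumberField F] (ℓ : ℕ) [Fact ℓ.Prime] {n : ℕ}
    (ρ : Gal(AlgebraicClosure F/F) →* GL (Fin n) ℚ_[ℓ]) (hρ : Continuous ρ)
    -- polarized of weight `w`, with distinct Hodge-Tate weights `m i`
    (w : ℤ) (hpol : Polarized ρ w) (m : Fin n → ℤ) (hm : Function.Injective m)
    (hHT : HodgeTate ρ m)
    -- good and pure at the places above the primes in `T`
    (P : HeightOneSpectrum (𝓞 F) → ℚ[X]) (T : Set ℕ) (hT0 : T.Nonempty)
    (hT : ∀ p ∈ T, p.Prime ∧ p ≠ ℓ ∧ UnramifiedIn F p)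
    (hP : ∀ p ∈ T, ∀ v, Above v p → GoodAt ρ w v (P v))
    -- no relations
    (hrel : (∀ k, 0 < k → 2 * k ≤ n → ¬ HodgeRelation m w (finrank ℚ F) k ∨
        ∃ p ∈ T, ¬ FrobeniusRelation P w p k) ∨
      (finrank ℚ F = 1 ∧ n ≤ 5) ∨ (finrank ℚ F = 1 ∧ Odd w ∧ n ≤ 7) ∨
      (Odd (finrank ℚ F) ∧ n ≤ 3)) :
    Semisimple ρ :=
  main ρ hρ w m hm hHT hpol P T hT0 hT hP hrel

end Pool.Agent.Results.MP_8f1292_ag.HodgeTateWeights
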