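import Pool.Agent.V8H84.WM.Main

/-!
# Semisimplicity from the Jordan blocks of the monodromy operators

Let `ρ` be an `n`-dimensional `ℓ`-adic representation of the absolute Galois group of a number field
`F`, for example `H^w(X, ℚ_ℓ)` for `X` smooth and projective over `F`. It is polarized of weight `w`
(hard Lefschetz), Hodge-Tate (Faltings; here the weights may have any multiplicities) and good and
pure at the places above almost all primes `p₀` (Deligne); only one such prime is used. Let `T` be a
set of primes `p ≠ ℓ`, unramified in `F`. At the places above `p` the representation may be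
ramified; it has a monodromy operator `N` (Grothendieck) and the weights of the Frobenius elements
are integers (de Jong, Deligne). Suppose that at each place above the primes in `T` the
monodromy-weight property holds, or that `N` has no two Jordan blocks of the same size (this is
sufficient by duality).

**Theorem.**
(1) The dimension of every stable subspace is, at each of these places, the total size of some of
the Jordan blocks of `N`.
(2) Suppose that for each `0 < k ≤ n / 2` there is one of these places such that `k` is not the
total size of a set of Jordan blocks of `N` containing at most half of the blocks of each size.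
Then `ρ` is semisimple.
(3) In particular `ρ` is semisimple if at one of these places `N` has no two blocks of the same
size, and
(4) irreducible if at one of these places `N` has only one block.

There is no hypothesis on the Hodge numbers or on Frobenius eigenvalues at good primes, and for
`F = ℚ` one place `p` of bad reduction is sufficient in (3) and (4), for all `ℓ ≠ p`.

Idea of the proof. Let `W` be a stable subspace. The transfer to `ℚ` of the determinant of `W` is a
power of the cyclotomic character, up to finite order (Tate, Ax), whose exponent is given by the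
purity at `p₀`. At a place `v` above `p`, the monodromy-weight property implies that the weight of
the determinant is at most `w dim W`, with equality if and only if the monodromy-weight property
holds for `W`. The sum over the places above `p` shows that there is equality everywhere. So the
primitive parts of `W` are contained in those of `V`, and if `W` is isotropic, they are isotropic
for the nondegenerate forms on the primitive parts of `V`.
-/

set_option autoImplicit false

namespace Pool.Agent.Results.MP_8f1292_ag.JordanBlocks

open NumberField IsDedekindDomain Polynomial Module Pool.Agent.V8H84.HT Pool.Agent.V8H84.WM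

theorem result {F : Type} [Field F] [NumberField F] (ℓ : ℕ) [Fact ℓ.Prime] {n : ℕ}
    (ρ : Gal(AlgebraicClosure F/F) →* GL (Fin n) ℚ_[ℓ]) (hρ : Continuous ρ)
    -- polarized of weight `w` and Hodge-Tate
    (w : ℤ) (hpol : Polarized ρ w) (m : Fin n → ℤ) (hHT : HodgeTate ρ m)
    -- good and pure at the places above one prime `p₀`
    {p₀ : ℕ} (hp₀ : p₀.Prime ∧ p₀ ≠ ℓ ∧ UnramifiedIn F p₀)
    (P : HeightOneSpectrum (𝓞 F) → ℚ[X]) (hP : ∀ v, Above v p₀ → GoodAt ρ w v (P v))
    -- the monodromy operators at the places above the primes in `T`
    (j : ℚ_[ℓ] →+* ℂ) (T : Set ℕ) (hT : ∀ p ∈ T, p.Prime ∧ p ≠ ℓ ∧ UnramifiedIn F p)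
    (N : Ideal (𝓞 (AlgebraicClosure F)) → Matrix (Fin n) (Fin n) ℚ_[ℓ])
    (hN : ∀ p ∈ T, ∀ v, Above v p → ∀ Q, PrimeOver Q v →
      Monodromy ρ v Q (N Q) ∧ IntegralWeights ρ j v Q ∧
        (MonodromyWeight ρ j w v Q (N Q) ∨ ∀ i, 1 ≤ i → blocks (N Q) i ≤ 1)) :
    -- the dimensions of stable subspaces
    (∀ W, Stable ρ W → ∀ p ∈ T, ∀ v, Above v p → ∀ Q, PrimeOver Q v →
      TotalSize (N Q) 1 (finrank ℚ_[ℓ] W)) ∧
    -- semisimplicity
    ((∀ k, 0 < k → 2 * k ≤ n → ∃ p ∈ T, ∃ v, Above v p ∧ ∃ Q, PrimeOver Q v ∧
      ¬ TotalSize (N Q) 2 k) → Semisimple ρ) ∧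
    ((∃ p ∈ T, ∃ v, Above v p ∧ ∃ Q, PrimeOver Q v ∧ ∀ i, 1 ≤ i → blocks (N Q) i ≤ 1) →
      Semisimple ρ) ∧
    -- irreducibility
    ((∃ p ∈ T, ∃ v, Above v p ∧ ∃ Q, PrimeOver Q v ∧ n ≤ (N Q).rank + 1) →
      ∀ W, Stable ρ W → W = ⊥ ∨ W = ⊤) :=
  main ρ hρ w hpol m hHT hp₀ P hP j T hT N hN

end Pool.Agent.Results.MP_8f1292_ag.JordanBlocks
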