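import Mathlib
import Pool.Agent.V8H71.SS.Iso

/-!
# Semisimplicity at every `ℓ` from the slopes of one Frobenius element at one real place

Let `M` be a pure motive of weight `w` over a number field `F` (a summand of `H ^ w (X)` for a smooth
projective variety `X`, of any dimension `n`), `ℓ` a prime number and `ρ` the action of the absolute
Galois group of `F` on the `ℓ`-adic realization of `M`, which is polarized. Outside of finitely many
places `v` there is good reduction, with Frobenius polynomials `P v` with rational coefficients. By
`RelationFreeFrobenius` (starting file) `ρ` is semisimple if for some prime number `p ≠ ℓ`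
the Frobenius eigenvalues at the places above `p` have no relations of a certain kind (isotropic
relations). This is a condition about the multiplicative relations between algebraic numbers. Here
we show that it follows from the slopes of one Frobenius element, and even from the slopes at
one real place of the field generated by the traces.

Let `p` be a prime number, unramified in `F`, such that `ρ` is good at the places above `p`. Suppose
that the polynomials `P v` at the places `v` above `p` are products of polynomials with simple real
roots and of minimal polynomials of numbers `π j` in CM fields `K j` (`OfBlockType`), pairwise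
independent: for `i ≠ j` and all complex embeddings `φ` of `K i` and `ψ` of `K j` some
automorphism of `ℂ` is the identity on `φ (K i)` and the complex conjugation on `ψ (K j)` (there
is no condition if `F = ℚ` and `P` is irreducible). Let `u j` be the slope function of `π j`
(`HasSlopeFunction`): if the residue field of the place has `p ^ f` elements, the slope at the
embedding `τ : K j → ℚ̄_p` is `(f w + κ u j τ) / 2` with a rational number `κ ≠ 0` and integers
`u j τ`; `u j τ = 0` means that the slope is `f w / 2`. Suppose that each `u = u j` satisfies one of
the following conditions (`BlockCondition`), in which `E` is a totally real subfield of `K j`, of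
any degree, and `ι : E → ℚ̄_p` is one embedding of `E`:

* (`OrbitBlock`) `[K j : E] = 2 l ^ k` for an odd prime `l`; `l` divides `u τ` for all `τ` that do
  not extend `ι`; and some group of automorphisms has an orbit of `l ^ k` embeddings that extend `ι`
  over which the sum of `u` is not divisible by `l`;
* (`CountBlock`) `[K j : E] = 2 l ^ k` for an odd prime `l`; `l` divides `u τ` for all `τ` that do
  not extend `ι`; modulo `l` the values of `u` at the `τ` that extend `ι` are `b`, `0` and `- b`,
  `l` does not divide `b`, and the value `b` occurs `m` times, where `m` is odd and less than `l`;
* (`TwoBlock`) `[K j : E] = 2 ^ (k + 1)`; `u τ` is even for all `τ` that do not extend `ι`, and odd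
  for `m` of the `τ` that extend `ι`, where `m` is not divisible by `4`; or the same with `even`
  and `odd` exchanged, if `4` divides `[K j : ℚ]`.

**Theorem.** Then `ρ` is semisimple, for every prime number `ℓ ≠ p` (such that there are two more
prime numbers of good reduction unramified in `F`, which is always true for motives).

Examples over `ℚ`, with `E = ℚ` and one prime `p` of good reduction.

* `w = 2`: let `M` be the orthogonal complement of the divisor classes in `H ^ 2` of a surface.
  If the Frobenius polynomial at `p` is irreducible of degree `2 l ^ k` (`l` a prime number), the
  slopes are `0`, `1`, `2`, and the slope `0` has odd multiplicity `m`, with `m < l` if `l` is odd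
  (for instance if the reduction is ordinary and `m = h ^ {2, 0}`), then `ρ` is semisimple.
* `w = 3`, for a Calabi-Yau threefold: if the Frobenius polynomial is irreducible of degree
  `2 l ^ k` and has the slopes `0` and `3`, with multiplicity one, and `3 / 2`. Or (`TwoBlock`)
  if it is irreducible of degree `2 ^ (k + 1)`, all slopes are in `(1 / 2) ℤ` and the number of
  the slopes in `ℤ` (with multiplicities) is not divisible by `4`.
* Any weight: away from the embeddings over one embedding of `E`, the numbers `u τ` may be
  arbitrary multiples of `l`.

The conditions are on one prime `p` only, there are no conditions on the dimension of `M` besides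
the one implied by the degrees, on the Hodge-Tate weights, on the motivic Galois group or on the
Galois group of the Frobenius polynomial.

The proof. It is shown in `Pool.Agent.V8H71.OD` that the only multiplicative relations between `p` and
the conjugates of the `π j` are those which follow from `π * conj π = p ^ (f w)`. An isotropic
relation at `p` is given by a set `A v` of `k` roots of every `P v`, not containing two complex
conjugate roots and no real root of multiplicity one, such that the product of all of them is a power
of `p` up to roots of unity. By the theorem on relations each root occurs in it as often as its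
complex conjugate, so `A v` is empty and `k = 0`.
-/

set_option autoImplicit false

namespace Pool.Agent.Results.MP_8f1292_ag.OneFrobeniusBlocks

open NumberField IsDedekindDomain Polynomial Pool.Agent.V8H71.SS
  Pool.Agent.Results.MP_8f1292_ag.RelationFreeFrobenius

/-- **Semisimplicity at all `ℓ` if the Frobenius polynomials at the places above one prime number
`p ≠ ℓ` are of block type.** -/
theorem result {F : Type} [Field F] [NumberField F] (ℓ : ℕ) [Fact ℓ.Prime] {n : ℕ}
    (ρ : Gal(AlgebraicClosure F/F) →* GL (Fin n) ℚ_[ℓ]) (hρ : Continuous ρ) (w : ℕ)
    (P : HeightOneSpectrum (𝓞 F) → ℚ[X]) (T : Set ℕ) (hT3 : 3 ≤ T.encard)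
    (hT : ∀ p ∈ T, p.Prime ∧ p ≠ ℓ ∧ UnramifiedIn F p)
    (hP : ∀ p ∈ T, ∀ v, Above v p →
      GoodAt ρ (algebraMap ℚ ℚ_[ℓ]) (algebraMap ℚ ℂ) (w : ℤ) v (P v))
    (hpol : Polarized ℓ ρ (w : ℤ)) (p : ℕ) [Fact p.Prime] (hp : p ∈ T)
    (hblock : OfBlockType P w p) : Semisimple ρ := by
  refine RelationFreeFrobenius.result ℓ ρ hρ (algebraMap ℚ ℚ_[ℓ]) (algebraMap ℚ ℂ) (w : ℤ) P T hT3
    hT hP hpol (Or.inl fun k hk _ => ⟨p, hp, ?_⟩)
  refine no_relation (hT p hp).2.2 hblock (fun v hv a ha => ?_) hk
  have h1 := (hP p hp v hv).pure a ha
  rw [zpow_natCast] at h1
  exact h1

end Pool.Agent.Results.MP_8f1292_ag.OneFrobeniusBlocks
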